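import Pool.Agent.Helper57.TX.Defs

/-!
# TX, blocks A8 and A9: tails of the derivative of the prime sum and of the squares of primes
-/

set_option autoImplicit false
open MeasureTheory Set Filter Topology
open Pool.Agent.Helper57.TX
open Pool.Agent.Helper54.LG (SS)
open Pool.Agent.Helper69.UG (XX)

namespace Pool.Agent.Helper20.TX

/-- The numerical estimate. -/
theorem num {C M : ℝ} (hC : 0 ≤ C) (hM : 20 ≤ M) (hCM : C * Real.exp 8 ≤ 8 * M) :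
    4 * (⌊M / 8⌋₊.factorial : ℝ) * (C / M ^ 2) ^ ⌊M / 8⌋₊ ≤ Real.exp (-(1 / 2 * M)) := by
  set k : ℕ := ⌊M / 8⌋₊ with hk
  have hM0 : 0 < M := by linarith
  have h1 : (k.factorial : ℝ) ≤ (M / 8) ^ k := by
    have h2 : (k.factorial : ℝ) ≤ (k : ℝ) ^ k := by exact_mod_cast Nat.factorial_le_pow k
    have h3 : (k : ℝ) ≤ M / 8 := Nat.floor_le (by positivity)
    exact h2.trans (pow_le_pow_left₀ (by positivity) h3 _)
  have h4 : M / 8 - 1 < k := by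
    have := Nat.lt_floor_add_one (M / 8)
    rw [← hk] at this; linarith
  have h5 : (M / 8) ^ k * (C / M ^ 2) ^ k = (C / (8 * M)) ^ k := by
    rw [← mul_pow]; congr 1; field_simp
  have h6 : C / (8 * M) ≤ Real.exp (-8) := by
    rw [div_le_iff₀ (by positivity), Real.exp_neg]
    have he : 0 < Real.exp 8 := Real.exp_pos 8
    rw [← div_eq_inv_mul, le_div_iff₀ he]
    exact hCM
  have h7 : (C / (8 * M)) ^ k ≤ Real.exp (-M + 8) := by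
    calc (C / (8 * M)) ^ k ≤ Real.exp (-8) ^ k := pow_le_pow_left₀ (by positivity) h6 _
      _ = Real.exp (k * (-8)) := by rw [← Real.exp_nat_mul]
      _ ≤ Real.exp (-M + 8) := Real.exp_le_exp.2 (by linarith)
  have h8 : (4 : ℝ) ≤ Real.exp 2 := by
    have h9 : (2 : ℝ) ≤ Real.exp 1 := by
      have := Real.add_one_le_exp (1 : ℝ); linarith
    calc (4 : ℝ) = 2 * 2 := by norm_num
      _ ≤ Real.exp 1 * Real.exp 1 := by nlinarith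
      _ = Real.exp 2 := by rw [← Real.exp_add]; norm_num
  calc 4 * (k.factorial : ℝ) * (C / M ^ 2) ^ k ≤ 4 * (M / 8) ^ k * (C / M ^ 2) ^ k := by gcongr
    _ = 4 * (C / (8 * M)) ^ k := by rw [mul_assoc, h5]
    _ ≤ Real.exp 2 * Real.exp (-M + 8) := by gcongr
    _ = Real.exp (-M + 10) := by rw [← Real.exp_add]; congr 1; ring
    _ ≤ Real.exp (-(1 / 2 * M)) := Real.exp_le_exp.2 (by linarith)

/-- the condition on the length -/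
theorem len {T M X : ℝ} (hT : 1 ≤ T) (hM : 0 ≤ M) (hX0 : 0 ≤ X) (hX : X * (M / 8) ≤ Real.log T / 4) :
    Real.exp X ^ ⌊M / 8⌋₊ ≤ T ^ (1 / 4 : ℝ) := by
  rw [← Real.exp_nat_mul, Real.rpow_def_of_pos (by linarith)]
  apply Real.exp_le_exp.2
  have h1 : ((⌊M / 8⌋₊ : ℕ) : ℝ) ≤ M / 8 := Nat.floor_le (by positivity)
  calc ((⌊M / 8⌋₊ : ℕ) : ℝ) * X ≤ M / 8 * X := by gcongr
    _ ≤ Real.log T * (1 / 4) := by linarith

theorem QX_mem {X : ℝ} : ∀ p ∈ QX X, p.Prime ∧ (p : ℝ) ≤ Real.exp X := by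
  intro p hp
  rw [QX, Finset.mem_filter, Finset.mem_range] at hp
  refine ⟨hp.2, ?_⟩
  exact (Nat.le_floor_iff (Real.exp_pos X).le).1 (by omega)

/-- The tail of a Dirichlet polynomial of bounded variance. -/
theorem dp_tail
    (mom_tail : ∃ T₀ : ℝ, ∀ T L : ℝ, T₀ ≤ T → 1 ≤ L → ∀ (Q : Finset ℕ) (r : ℕ → ℝ) (k : ℕ), (∀ p ∈ Q, p.Prime ∧ (p : ℝ) ≤ L) →
      L ^ k ≤ T ^ (1 / 4 : ℝ) → ∀ V : ℝ, 0 < V →
      volume {t : ℝ | t ∈ JJ T ∧ V ≤ ‖DP Q r t‖} ≤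
        ENNReal.ofReal (4 * k.factorial * ((∑ p ∈ Q, r p ^ 2 / p) / V ^ 2) ^ k * T)) {C : ℝ} (hC : 0 ≤ C) :
    ∃ M₀ T₀ : ℝ, 1 ≤ M₀ ∧ ∀ T M X : ℝ, T₀ ≤ T → M₀ ≤ M → 0 ≤ X → X * M ≤ 2 * Real.log T → ∀ r : ℕ → ℝ,
      ∑ p ∈ QX X, r p ^ 2 / p ≤ C →
      volume {t : ℝ | t ∈ JJ T ∧ M / 2 ≤ ‖DP (QX X) r t‖} ≤ ENNReal.ofReal (Real.exp (-(1 / 2 * M)) * T) := by
  obtain ⟨T₀, h⟩ := mom_tail
  refine ⟨max 20 (4 * C * Real.exp 8 / 8), max T₀ 1, le_trans (by norm_num) (le_max_left _ _), ?_⟩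
  intro T M X hT hM hX hXM r hr
  have hT1 : 1 ≤ T := (le_max_right _ _).trans hT
  have hM20 : 20 ≤ M := (le_max_left _ _).trans hM
  have hM0 : 0 < M := by linarith
  have hMC : 4 * C * Real.exp 8 ≤ 8 * M := by
    have := (le_max_right _ _).trans hM
    rw [div_le_iff₀ (by norm_num)] at this; linarith
  have hlen : Real.exp X ^ ⌊M / 8⌋₊ ≤ T ^ (1 / 4 : ℝ) := len hT1 hM0.le hX (by linarith)
  refine (h T (Real.exp X) ((le_max_left _ _).trans hT) (Real.one_le_exp hX) (QX X) r ⌊M / 8⌋₊ QX_mem hlen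
    (M / 2) (by positivity)).trans ?_
  apply ENNReal.ofReal_le_ofReal
  have h0 : 0 ≤ ∑ p ∈ QX X, r p ^ 2 / (p : ℝ) := Finset.sum_nonneg fun p _ => by positivity
  have h1 : (∑ p ∈ QX X, r p ^ 2 / (p : ℝ)) / (M / 2) ^ 2 ≤ 4 * C / M ^ 2 := by
    rw [div_pow]
    rw [div_le_div_iff₀ (by positivity) (by positivity)]
    have : (0 : ℝ) ≤ M ^ 2 := by positivity
    nlinarith
  have h2 : 4 * (⌊M / 8⌋₊.factorial : ℝ) * ((∑ p ∈ QX X, r p ^ 2 / (p : ℝ)) / (M / 2) ^ 2) ^ ⌊M / 8⌋₊ ≤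
      Real.exp (-(1 / 2 * M)) := by
    refine le_trans ?_ (num (C := 4 * C) (by positivity) hM20 hMC)
    gcongr
  have hT0 : 0 ≤ T := by linarith
  exact mul_le_mul_of_nonneg_right h2 hT0

/-- A8: the tail of the derivative of the prime sum -/
theorem ss_tail_of
    (mom_tail : ∃ T₀ : ℝ, ∀ T L : ℝ, T₀ ≤ T → 1 ≤ L → ∀ (Q : Finset ℕ) (r : ℕ → ℝ) (k : ℕ), (∀ p ∈ Q, p.Prime ∧ (p : ℝ) ≤ L) →
      L ^ k ≤ T ^ (1 / 4 : ℝ) → ∀ V : ℝ, 0 < V →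
      volume {t : ℝ | t ∈ JJ T ∧ V ≤ ‖DP Q r t‖} ≤
        ENNReal.ofReal (4 * k.factorial * ((∑ p ∈ Q, r p ^ 2 / p) / V ^ 2) ^ k * T))
    (var_rs : ∃ C : ℝ, 0 < C ∧ ∀ X : ℝ, 1 / 2 ≤ X → ∑ p ∈ QX X, rs X p ^ 2 / p ≤ C)
    (ss_pt : ∃ C : ℝ, 0 < C ∧ ∀ X t : ℝ, 1 / 2 ≤ X → |SS X t| ≤ ‖DP (QX X) (rs X) t‖ + C) :
    ∃ κ M₀ T₀ : ℝ, 0 < κ ∧ 1 ≤ M₀ ∧ ∀ T M : ℝ, T₀ ≤ T → M₀ ≤ M → M ≤ Real.log T →
      volume {t : ℝ | t ∈ JJ T ∧ M < |SS (XX T M) t|} ≤ ENNReal.ofReal (Real.exp (-(κ * M)) * T) := by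
  obtain ⟨C, hC, hvar⟩ := var_rs
  obtain ⟨C', hC', hpt⟩ := ss_pt
  obtain ⟨M₀, T₀, hM₀, h⟩ := dp_tail mom_tail hC.le
  refine ⟨1 / 2, max M₀ (2 * C'), max T₀ 1, by norm_num, hM₀.trans (le_max_left _ _), ?_⟩
  intro T M hT hM hMT
  have hT1 : 1 ≤ T := (le_max_right _ _).trans hT
  have hM1 : 1 ≤ M := hM₀.trans ((le_max_left _ _).trans hM)
  have hMC : 2 * C' ≤ M := (le_max_right _ _).trans hM
  have hlog : 0 < Real.log T := by linarith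
  have hX1 : 1 ≤ XX T M := by
    rw [XX, le_div_iff₀ (by linarith)]; linarith
  have hXM : XX T M * M = Real.log T := by
    rw [XX]; field_simp
  refine (measure_mono ?_).trans (h T M (XX T M) ((le_max_left _ _).trans hT) ((le_max_left _ _).trans hM)
    (by linarith) (by linarith) (rs (XX T M)) (hvar _ (by linarith)))
  rintro t ⟨ht, ht2⟩
  refine ⟨ht, ?_⟩
  have := hpt (XX T M) t (by linarith)
  linarith

/-- A9: the tail of the squares of primes -/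
theorem sq_tail_of
    (mom_tail : ∃ T₀ : ℝ, ∀ T L : ℝ, T₀ ≤ T → 1 ≤ L → ∀ (Q : Finset ℕ) (r : ℕ → ℝ) (k : ℕ), (∀ p ∈ Q, p.Prime ∧ (p : ℝ) ≤ L) →
      L ^ k ≤ T ^ (1 / 4 : ℝ) → ∀ V : ℝ, 0 < V →
      volume {t : ℝ | t ∈ JJ T ∧ V ≤ ‖DP Q r t‖} ≤
        ENNReal.ofReal (4 * k.factorial * ((∑ p ∈ Q, r p ^ 2 / p) / V ^ 2) ^ k * T))
    (var_rb : ∃ C : ℝ, 0 < C ∧ ∀ X : ℝ, 1 / 2 ≤ X → ∑ p ∈ QX (X / 2), rb X p ^ 2 / p ≤ C) :
    ∃ κ M₀ T₀ : ℝ, 0 < κ ∧ 1 ≤ M₀ ∧ ∀ T M : ℝ, T₀ ≤ T → M₀ ≤ M → M ≤ Real.log T →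
      volume {t : ℝ | t ∈ JJ T ∧ M < ‖DP (QX (XX T M / 2)) (rb (XX T M)) (2 * t)‖} ≤
        ENNReal.ofReal (Real.exp (-(κ * M)) * T) := by
  obtain ⟨C, hC, hvar⟩ := var_rb
  obtain ⟨M₀, T₀, hM₀, h⟩ := dp_tail mom_tail hC.le
  refine ⟨1 / 2, M₀, max T₀ 1, by norm_num, hM₀, ?_⟩
  intro T M hT hM hMT
  have hT1 : 1 ≤ T := (le_max_right _ _).trans hT
  have hM1 : 1 ≤ M := hM₀.trans hM
  have hlog : 0 < Real.log T := by linarith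
  have hlog2 : Real.log T ≤ Real.log (2 * T) := Real.log_le_log (by linarith) (by linarith)
  have hX1 : 1 ≤ XX T M := by
    rw [XX, le_div_iff₀ (by linarith)]; linarith
  have hXM : XX T M * M = Real.log T := by
    rw [XX]; field_simp
  set A : Set ℝ := {t : ℝ | t ∈ JJ (2 * T) ∧ M / 2 ≤ ‖DP (QX (XX T M / 2)) (rb (XX T M)) t‖} with hA
  have h2 := h (2 * T) M (XX T M / 2) (by linarith [(le_max_left _ _).trans hT]) hM (by linarith)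
    (by linarith) (rb (XX T M)) (hvar _ (by linarith))
  have hsub : {t : ℝ | t ∈ JJ T ∧ M < ‖DP (QX (XX T M / 2)) (rb (XX T M)) (2 * t)‖} ⊆ (fun t : ℝ => 2 * t) ⁻¹' A := by
    rintro t ⟨ht, ht2⟩
    refine ⟨?_, ?_⟩
    · rw [JJ, mem_Icc] at ht ⊢
      constructor <;> linarith [ht.1, ht.2]
    · show M / 2 ≤ ‖DP (QX (XX T M / 2)) (rb (XX T M)) (2 * t)‖
      linarith
  refine (measure_mono hsub).trans ?_
  rw [Real.volume_preimage_mul_left (by norm_num : (2 : ℝ) ≠ 0)]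
  calc ENNReal.ofReal |(2 : ℝ)⁻¹| * volume A ≤
      ENNReal.ofReal |(2 : ℝ)⁻¹| * ENNReal.ofReal (Real.exp (-(1 / 2 * M)) * (2 * T)) := by gcongr
    _ = ENNReal.ofReal (|(2 : ℝ)⁻¹| * (Real.exp (-(1 / 2 * M)) * (2 * T))) := (ENNReal.ofReal_mul (abs_nonneg _)).symm
    _ = ENNReal.ofReal (Real.exp (-(1 / 2 * M)) * T) := by
        congr 1
        rw [abs_of_pos (by norm_num : (0 : ℝ) < 2⁻¹)]; ring

end Pool.Agent.Helper20.TX
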